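import Pool.Agent.Helper12.XG.St

/-!
# Project XG (MP_627c93_nt), module CHD: Chebyshev polynomials near the interval
-/

set_option autoImplicit false

namespace Pool.Agent.Helper95.XG

open Finset Polynomial Pool.Agent.Helper12.XG Pool.Agent.Helper14.GS

private theorem nsin (w : ℂ) : ‖Complex.sin w‖ ^ 2 = Real.sin w.re ^ 2 + Real.sinh w.im ^ 2 := by
  rw [Complex.sin_eq, Complex.sq_norm, Complex.normSq_apply]
  have h1 : (Complex.sin w.re * Complex.cosh w.im + Complex.cos w.re * Complex.sinh w.im *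
      Complex.I).re = Real.sin w.re * Real.cosh w.im := by
    rw [← Complex.ofReal_sin, ← Complex.ofReal_cos, ← Complex.ofReal_cosh, ← Complex.ofReal_sinh]
    simp [-Complex.ofReal_sin, -Complex.ofReal_cos, -Complex.ofReal_cosh, -Complex.ofReal_sinh]
  have h2 : (Complex.sin w.re * Complex.cosh w.im + Complex.cos w.re * Complex.sinh w.im *
      Complex.I).im = Real.cos w.re * Real.sinh w.im := by
    rw [← Complex.ofReal_sin, ← Complex.ofReal_cos, ← Complex.ofReal_cosh, ← Complex.ofReal_sinh]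
    simp [-Complex.ofReal_sin, -Complex.ofReal_cos, -Complex.ofReal_cosh, -Complex.ofReal_sinh]
  rw [h1, h2]
  have h3 := Real.sin_sq_add_cos_sq w.re
  have h4 := Real.cosh_sq w.im
  nlinarith [h3, h4, sq_nonneg (Real.sin w.re), sq_nonneg (Real.sinh w.im)]

private theorem ncos (w : ℂ) : ‖Complex.cos w‖ ^ 2 = Real.cos w.re ^ 2 + Real.sinh w.im ^ 2 := by
  rw [Complex.cos_eq, Complex.sq_norm, Complex.normSq_apply]
  have h1 : (Complex.cos w.re * Complex.cosh w.im - Complex.sin w.re * Complex.sinh w.im *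
      Complex.I).re = Real.cos w.re * Real.cosh w.im := by
    rw [← Complex.ofReal_sin, ← Complex.ofReal_cos, ← Complex.ofReal_cosh, ← Complex.ofReal_sinh]
    simp [-Complex.ofReal_sin, -Complex.ofReal_cos, -Complex.ofReal_cosh, -Complex.ofReal_sinh]
  have h2 : (Complex.cos w.re * Complex.cosh w.im - Complex.sin w.re * Complex.sinh w.im *
      Complex.I).im = - (Real.sin w.re * Real.sinh w.im) := by
    rw [← Complex.ofReal_sin, ← Complex.ofReal_cos, ← Complex.ofReal_cosh, ← Complex.ofReal_sinh]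
    simp [-Complex.ofReal_sin, -Complex.ofReal_cos, -Complex.ofReal_cosh, -Complex.ofReal_sinh]
  rw [h1, h2]
  have h3 := Real.sin_sq_add_cos_sq w.re
  have h4 := Real.cosh_sq w.im
  nlinarith [h3, h4, sq_nonneg (Real.sin w.re), sq_nonneg (Real.sinh w.im)]

private theorem ncosn (n : ℕ) (θ : ℂ) : ‖Complex.cos (n * θ)‖ ≤ Real.exp (n * |θ.im|) := by
  rw [Complex.cos, norm_div]
  have h1 : ‖Complex.exp (n * θ * Complex.I)‖ ≤ Real.exp (n * |θ.im|) := by
    rw [Complex.norm_exp]
    apply Real.exp_le_exp.mpr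
    have : (n * θ * Complex.I).re = n * (-θ.im) := by simp
    rw [this]
    exact mul_le_mul_of_nonneg_left (neg_le_abs _) (Nat.cast_nonneg n)
  have h2 : ‖Complex.exp (-(n * θ) * Complex.I)‖ ≤ Real.exp (n * |θ.im|) := by
    rw [Complex.norm_exp]
    apply Real.exp_le_exp.mpr
    have : (-(n * θ) * Complex.I).re = n * θ.im := by simp
    rw [this]
    exact mul_le_mul_of_nonneg_left (le_abs_self _) (Nat.cast_nonneg n)
  have h3 := norm_add_le (Complex.exp (n * θ * Complex.I)) (Complex.exp (-(n * θ) * Complex.I))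
  have h4 : ‖(2 : ℂ)‖ = 2 := by simp
  rw [h4, div_le_iff₀ (by norm_num)]
  linarith

private theorem cosh_lower (v : ℝ) : 1 + v ^ 2 / 2 ≤ Real.cosh v := by
  have h1 : Real.cosh v = 1 + 2 * Real.sinh (v / 2) ^ 2 := by
    have h2 := Real.cosh_two_mul (v / 2)
    have h3 := Real.cosh_sq (v / 2)
    have h4 : 2 * (v / 2) = v := by ring
    rw [h4] at h2
    rw [h2, h3]
    ring
  have h5 : (v / 2) ^ 2 ≤ Real.sinh (v / 2) ^ 2 := by
    rcases le_total 0 (v / 2) with h | h
    · have := Real.self_le_sinh_iff.mpr h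
      nlinarith
    · have := Real.sinh_le_self_iff.mpr h
      nlinarith
  rw [h1]
  nlinarith

theorem hCHD : Pool.Agent.Helper12.XG.StCHD := by
  intro n c ρ z hc1 hc2 hρ hz
  obtain ⟨θ, hθ⟩ := Complex.cos_surjective z
  obtain ⟨w, hw⟩ : ∃ w : ℂ, θ = 2 * w := ⟨θ / 2, by ring⟩
  have hz1 : ‖z - 1‖ = 2 * ‖Complex.sin w‖ ^ 2 := by
    have : z - 1 = -(2 * Complex.sin w ^ 2) := by
      rw [← hθ, hw, Complex.cos_two_mul]
      have := Complex.sin_sq_add_cos_sq w
      linear_combination 2 * this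
    rw [this, norm_neg, norm_mul, norm_pow]
    simp
  have hz2 : ‖z + 1‖ = 2 * ‖Complex.cos w‖ ^ 2 := by
    have : z + 1 = 2 * Complex.cos w ^ 2 := by
      rw [← hθ, hw, Complex.cos_two_mul]
      ring
    rw [this, norm_mul, norm_pow]
    simp
  have him : θ.im = 2 * w.im := by rw [hw]; simp
  have hsum : ‖z - 1‖ + ‖z + 1‖ = 2 * Real.cosh θ.im := by
    rw [hz1, hz2, nsin, ncos, him, Real.cosh_two_mul, Real.cosh_sq]
    have := Real.sin_sq_add_cos_sq w.re
    linear_combination 2 * this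
  have hb1 : ‖z - 1‖ ≤ (1 - c) + ρ := by
    calc ‖z - 1‖ = ‖(z - c) + ((c : ℂ) - 1)‖ := by ring_nf
      _ ≤ ‖z - c‖ + ‖((c : ℂ) - 1)‖ := norm_add_le _ _
      _ ≤ ρ + (1 - c) := by
          have : ‖((c : ℂ) - 1)‖ = 1 - c := by
            have h : ((c : ℂ) - 1) = ((c - 1 : ℝ) : ℂ) := by push_cast; ring
            rw [h, Complex.norm_real, Real.norm_eq_abs, abs_of_nonpos (by linarith)]
            ring
          rw [this]
          linarith
      _ = _ := by ring
  have hb2 : ‖z + 1‖ ≤ (1 + c) + ρ := by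
    calc ‖z + 1‖ = ‖(z - c) + ((c : ℂ) + 1)‖ := by ring_nf
      _ ≤ ‖z - c‖ + ‖((c : ℂ) + 1)‖ := norm_add_le _ _
      _ ≤ ρ + (1 + c) := by
          have : ‖((c : ℂ) + 1)‖ = 1 + c := by
            have h : ((c : ℂ) + 1) = ((c + 1 : ℝ) : ℂ) := by push_cast; ring
            rw [h, Complex.norm_real, Real.norm_eq_abs, abs_of_nonneg (by linarith)]
            ring
          rw [this]
          linarith
      _ = _ := by ring
  have hch := cosh_lower θ.im
  have hv : θ.im ^ 2 ≤ 2 * ρ := by linarith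
  have hv2 : |θ.im| ≤ Real.sqrt (2 * ρ) := Real.abs_le_sqrt hv
  have hT : (Chebyshev.T ℂ (n : ℤ)).eval z = Complex.cos (n * θ) := by
    rw [← hθ, Polynomial.Chebyshev.T_complex_cos]
    simp
  rw [hT]
  refine (ncosn n θ).trans ?_
  apply Real.exp_le_exp.mpr
  exact mul_le_mul_of_nonneg_left hv2 (Nat.cast_nonneg n)

end Pool.Agent.Helper95.XG
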